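import Pool.Agent.H83.Fan

set_option autoImplicit false

namespace Pool.Agent.Results.MP_99bf3a_gt.GroupNotK

universe u

/-- every compact set meets only finitely many members of the family -/
def CompactFinite {X : Type} [TopologicalSpace X] {ι : Type u} (F : ι → Set X) : Prop :=
  ∀ K : Set X, IsCompact K → {i | (F i ∩ K).Nonempty}.Finite

/-- `X` is a k-space -/
def IsKSpace (X : Type) [TopologicalSpace X] : Prop :=
  ∀ C : Set X, (∀ K : Set X, IsCompact K → IsClosed (((↑) : K → X) ⁻¹' C)) → IsClosed C

theorem result : ∃ (G : Type) (_ : AddCommGroup G) (_ : TopologicalSpace G),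
    IsTopologicalAddGroup G ∧ T2Space G ∧
    (∀ (ι : Type u) (F : ι → Set G), CompactFinite F → LocallyFinite F) ∧ ¬ IsKSpace G :=
  ⟨Pool.Agent.H83.Fan.grp, inferInstance, inferInstance, inferInstance, inferInstance,
    fun _ F h => Pool.Agent.H83.Fan.no_fan F h,
    fun h => Pool.Agent.H83.Fan.sig_not_closed (h _ Pool.Agent.H83.Fan.sig_kclosed)⟩

end Pool.Agent.Results.MP_99bf3a_gt.GroupNotK
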